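import Mathlib

open Finset MeasureTheory
open scoped ENNReal

namespace Pool.Agent.Results.MP_cb142b_pr.SharpProfile

set_option linter.unusedSectionVars false

noncomputable section

section Defs

variable {V : Type} [Fintype V] [DecidableEq V]

/-- `P` is the transition matrix of a reversible Markov chain on the finite set `V` with
stationary law `π`: detailed balance holds.  (No irreducibility is asked for: if some state
cannot be reached from another one then the hitting time below is infinite.) -/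
structure Reversible (P : V → V → ℝ) (π : V → ℝ) : Prop where
  nonneg : ∀ x y, 0 ≤ P x y
  row : ∀ x, ∑ y, P x y = 1
  pos : ∀ x, 0 < π x
  total : ∑ x, π x = 1
  balance : ∀ x y, π x * P x y = π y * P y x

variable (P : V → V → ℝ) (π : V → ℝ)

/-- The Dirichlet form `E(h,h) = (1/2) ∑_{x,y} π(x) P(x,y) (h(x)-h(y))²`. -/
def energy (h : V → ℝ) : ℝ := (1 / 2) * ∑ x, ∑ y, π x * P x y * (h x - h y) ^ 2

/-- The variance of `h` under `π`. -/
def variance (h : V → ℝ) : ℝ := ∑ x, π x * (h x) ^ 2 - (∑ x, π x * h x) ^ 2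

/-- `π(supp h)`. -/
def suppMass (h : V → ℝ) : ℝ := ∑ x, if h x ≠ 0 then π x else 0

/-- The spectral profile: `Λ(ε)` is the minimum of `E(h,h)` over the `h` with `Var h = 1` and
`π(supp h) ≤ ε`, and `+∞` if there is no such `h`. -/
def profile (ε : ℝ) : ℝ≥0∞ :=
  ⨅ h : {h : V → ℝ // variance π h = 1 ∧ suppMass π h ≤ ε}, ENNReal.ofReal (energy P π h.1)

/-- `π_* = min_x π(x)`. -/
def piMin : ℝ := ⨅ x, π x

/-- The spectral-profile integral `∫_a^b 2 dδ / (δ Λ(δ))`. -/
def profileInt (a b : ℝ) : ℝ≥0∞ :=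
  ∫⁻ δ in Set.Ioc a b, 2 / (ENNReal.ofReal δ * profile P π δ)

/-- The spectral-profile time `t_sp = ∫_{4π_*}^{16} 2 dδ / (δ Λ(δ))`. -/
def tsp : ℝ≥0∞ := profileInt P π (4 * piMin π) 16

/-- Probability that the jump chain started at `x` does not visit `y` at times `0, ..., n`. -/
def avoid (y : V) : ℕ → V → ℝ
  | 0, x => if x = y then 0 else 1
  | n + 1, x => if x = y then 0 else ∑ z, P x z * avoid y n z

/-- `P_x(T_y > t)` for the continuous-time chain with jump rate `1`: the number of jumps up to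
time `t` is Poisson with mean `t` and independent of the jump chain. -/
def surv (x y : V) (t : ℝ) : ℝ≥0∞ :=
  ∑' n : ℕ, ENNReal.ofReal (Real.exp (-t) * t ^ n / (n.factorial : ℝ) * avoid P y n x)

/-- The expected hitting time `E_x[T_y] = ∫_0^∞ P_x(T_y > t) dt`. -/
def hit (x y : V) : ℝ≥0∞ := ∫⁻ t in Set.Ioi (0 : ℝ), surv P x y t

/-- `t_hit = max_{x,y} E_x[T_y]`. -/
def thit : ℝ≥0∞ := ⨆ x, ⨆ y, hit P x y

end Defs

section Graph

variable {V : Type} [Fintype V] [DecidableEq V] (G : SimpleGraph V) [DecidableRel G.Adj]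

/-- Jump probabilities of simple random walk on `G`: `P(x,y) = 1/deg(x)` if `x` and `y` are
adjacent, and `0` otherwise. -/
def srw (x y : V) : ℝ := if G.Adj x y then 1 / (G.degree x : ℝ) else 0

/-- The stationary law `π(x) = deg(x) / (2|E|)`. -/
def stat (x : V) : ℝ := (G.degree x : ℝ) / (2 * (G.edgeFinset.card : ℝ))

end Graph

section Proof

variable {V : Type} [Fintype V] [DecidableEq V] {P : V → V → ℝ} {π : V → ℝ}

theorem avoid_nonneg (hP : ∀ x y, 0 ≤ P x y) (y : V) (n : ℕ) (x : V) : 0 ≤ avoid P y n x := by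
  induction n generalizing x with
  | zero => simp only [avoid]; split_ifs <;> norm_num
  | succ n ih =>
    simp only [avoid]
    split_ifs
    · exact le_rfl
    · exact Finset.sum_nonneg fun z _ => mul_nonneg (hP _ _) (ih z)

theorem lint_poisson (n : ℕ) (a : ℝ) (ha : 0 ≤ a) :
    ∫⁻ t in Set.Ioi (0 : ℝ), ENNReal.ofReal (Real.exp (-t) * t ^ n / (n.factorial : ℝ) * a) =
      ENNReal.ofReal a := by
  have h1 : ∀ t : ℝ, Real.exp (-t) * t ^ n / (n.factorial : ℝ) * a =
      (a / (n.factorial : ℝ)) * (Real.exp (-t) * t ^ ((n : ℝ) + 1 - 1)) := by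
    intro t
    rw [add_sub_cancel_right, Real.rpow_natCast]
    ring
  simp_rw [h1]
  rw [← ofReal_integral_eq_lintegral_ofReal]
  · rw [integral_const_mul, ← Real.Gamma_eq_integral (by positivity : (0 : ℝ) < (n : ℝ) + 1),
      Real.Gamma_nat_eq_factorial]
    congr 1
    field_simp
  · exact (Real.GammaIntegral_convergent (by positivity : (0 : ℝ) < (n : ℝ) + 1)).const_mul _
  · refine (ae_restrict_iff' measurableSet_Ioi).mpr (Filter.Eventually.of_forall fun t ht => ?_)
    have ht' : (0 : ℝ) < t := ht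
    simp only [Pi.zero_apply]
    positivity

theorem hit_eq (hP : ∀ x y, 0 ≤ P x y) (x y : V) :
    hit P x y = ∑' n : ℕ, ENNReal.ofReal (avoid P y n x) := by
  unfold hit surv
  rw [lintegral_tsum]
  · exact tsum_congr fun n => lint_poisson n _ (avoid_nonneg hP y n x)
  · intro n
    apply Measurable.aemeasurable
    fun_prop

/-- Expected hitting time as a real number. -/
def hr (P : V → V → ℝ) (y x : V) : ℝ := ∑' n : ℕ, avoid P y n x

theorem hit_le (x y : V) : hit P x y ≤ thit P :=
  le_iSup_of_le x (le_iSup_of_le y le_rfl)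

theorem summable_avoid (hP : ∀ x y, 0 ≤ P x y) (hT : thit P ≠ ⊤) (x y : V) :
    Summable fun n => avoid P y n x := by
  have h1 : ∑' n : ℕ, ((Real.toNNReal (avoid P y n x) : NNReal) : ℝ≥0∞) ≠ ⊤ := by
    have h2 : ∑' n : ℕ, ENNReal.ofReal (avoid P y n x) ≠ ⊤ := by
      rw [← hit_eq hP]
      exact ne_top_of_le_ne_top hT (hit_le x y)
    exact h2
  have h3 := ENNReal.tsum_coe_ne_top_iff_summable.mp h1
  have h4 := NNReal.summable_coe.mpr h3
  refine h4.congr fun n => ?_
  exact Real.coe_toNNReal _ (avoid_nonneg hP y n x)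

theorem hr_le (hP : ∀ x y, 0 ≤ P x y) (hT : thit P ≠ ⊤) (x y : V) :
    hr P y x ≤ (thit P).toReal := by
  have h1 : ENNReal.ofReal (hr P y x) = hit P x y := by
    rw [hit_eq hP, hr,
      ENNReal.ofReal_tsum_of_nonneg (avoid_nonneg hP y · x) (summable_avoid hP hT x y)]
  have h2 : ENNReal.ofReal (hr P y x) ≤ thit P := h1 ▸ hit_le x y
  exact (ENNReal.ofReal_le_iff_le_toReal hT).mp h2

theorem hr_nonneg (hP : ∀ x y, 0 ≤ P x y) (x y : V) : 0 ≤ hr P y x :=
  tsum_nonneg fun n => avoid_nonneg hP y n x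

theorem hr_self (y : V) : hr P y y = 0 := by
  unfold hr
  have : (fun n => avoid P y n y) = fun _ => 0 := by
    funext n
    cases n <;> simp [avoid]
  rw [this]; exact tsum_zero

theorem hr_step (hP : ∀ x y, 0 ≤ P x y) (hT : thit P ≠ ⊤) {x y : V} (hxy : x ≠ y) :
    hr P y x = 1 + ∑ z, P x z * hr P y z := by
  unfold hr
  rw [(summable_avoid hP hT x y).tsum_eq_zero_add]
  congr 1
  · simp [avoid, hxy]
  · simp only [avoid, if_neg hxy]
    rw [Summable.tsum_finsetSum (fun z _ => (summable_avoid hP hT z y).mul_left _)]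
    exact Finset.sum_congr rfl fun z _ => tsum_mul_left

/-- The bilinear Dirichlet form. -/
def bil (P : V → V → ℝ) (π : V → ℝ) (f g : V → ℝ) : ℝ :=
  (1 / 2) * ∑ x, ∑ y, π x * P x y * ((f x - f y) * (g x - g y))

theorem energy_eq (f : V → ℝ) : energy P π f = bil P π f f := by
  unfold energy bil
  congr 1
  refine Finset.sum_congr rfl fun x _ => Finset.sum_congr rfl fun y _ => ?_
  ring

theorem energy_nonneg (hR : Reversible P π) (h : V → ℝ) : 0 ≤ energy P π h := by
  unfold energy
  have : 0 ≤ ∑ x, ∑ y, π x * P x y * (h x - h y) ^ 2 :=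
    Finset.sum_nonneg fun x _ => Finset.sum_nonneg fun y _ =>
      mul_nonneg (mul_nonneg (hR.pos x).le (hR.nonneg x y)) (sq_nonneg _)
  linarith

theorem bil_comm (f g : V → ℝ) : bil P π f g = bil P π g f := by
  unfold bil
  congr 1
  refine Finset.sum_congr rfl fun x _ => Finset.sum_congr rfl fun y _ => ?_
  ring

/-- Green's formula. -/
theorem bil_eq (hR : Reversible P π) (f g : V → ℝ) :
    bil P π f g = ∑ x, g x * (π x * (f x - ∑ y, P x y * f y)) := by
  have h1 : ∑ x, ∑ y, π x * P x y * ((f x - f y) * (g x - g y)) =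
      (∑ x, ∑ y, g x * (π x * P x y * (f x - f y))) +
      ∑ x, ∑ y, g y * (π x * P x y * (f y - f x)) := by
    rw [← Finset.sum_add_distrib]
    refine Finset.sum_congr rfl fun x _ => ?_
    rw [← Finset.sum_add_distrib]
    refine Finset.sum_congr rfl fun y _ => ?_
    ring
  have h2 : ∑ x, ∑ y, g y * (π x * P x y * (f y - f x)) =
      ∑ x, ∑ y, g x * (π x * P x y * (f x - f y)) := by
    rw [Finset.sum_comm]
    refine Finset.sum_congr rfl fun x _ => Finset.sum_congr rfl fun y _ => ?_
    rw [hR.balance]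
  have h3 : ∀ x, ∑ y, g x * (π x * P x y * (f x - f y)) =
      g x * (π x * (f x - ∑ y, P x y * f y)) := by
    intro x
    rw [← Finset.mul_sum]
    congr 1
    have : ∀ y, π x * P x y * (f x - f y) = π x * (P x y * f x - P x y * f y) := by
      intro y; ring
    simp_rw [this]
    rw [← Finset.mul_sum, Finset.sum_sub_distrib, ← Finset.sum_mul, hR.row, one_mul]
  unfold bil
  rw [h1, h2]
  simp_rw [h3]
  ring

theorem bil_hr (hR : Reversible P π) (hT : thit P ≠ ⊤) (y : V) (g : V → ℝ) :
    bil P π (hr P y) g = ∑ x, π x * g x - g y := by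
  have hg : bil P π (hr P y) g = bil P π (hr P y) (fun x => g x - g y) := by
    unfold bil; simp
  rw [hg, bil_eq hR]
  have : ∀ x, (g x - g y) * (π x * (hr P y x - ∑ z, P x z * hr P y z)) =
      π x * g x - π x * g y := by
    intro x
    by_cases hxy : x = y
    · subst hxy; ring
    · have h1 : hr P y x - ∑ z, P x z * hr P y z = 1 := by
        nth_rewrite 1 [hr_step hR.nonneg hT hxy]; ring
      rw [h1]; ring
  simp_rw [this]
  rw [Finset.sum_sub_distrib, ← Finset.sum_mul, hR.total, one_mul]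

theorem bil_cs (hR : Reversible P π) (f g : V → ℝ) :
    (bil P π f g) ^ 2 ≤ bil P π f f * bil P π g g := by
  have key := Finset.sum_mul_sq_le_sq_mul_sq (univ ×ˢ univ : Finset (V × V))
    (fun p => Real.sqrt (π p.1 * P p.1 p.2) * (f p.1 - f p.2))
    (fun p => Real.sqrt (π p.1 * P p.1 p.2) * (g p.1 - g p.2))
  rw [Finset.sum_product, Finset.sum_product, Finset.sum_product] at key
  have hw : ∀ x y, 0 ≤ π x * P x y := fun x y => mul_nonneg (hR.pos x).le (hR.nonneg x y)
  have e1 : ∀ x y, Real.sqrt (π x * P x y) * (f x - f y) *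
      (Real.sqrt (π x * P x y) * (g x - g y)) = π x * P x y * ((f x - f y) * (g x - g y)) := by
    intro x y
    have := Real.mul_self_sqrt (hw x y)
    calc _ = (Real.sqrt (π x * P x y) * Real.sqrt (π x * P x y)) *
          ((f x - f y) * (g x - g y)) := by ring
      _ = _ := by rw [this]
  have e2 : ∀ (u : V → ℝ) x y, (Real.sqrt (π x * P x y) * (u x - u y)) ^ 2 =
      π x * P x y * ((u x - u y) * (u x - u y)) := by
    intro u x y
    have := Real.sq_sqrt (hw x y)
    rw [mul_pow, this]; ring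
  simp only [e1, e2] at key
  unfold bil
  nlinarith [key]

/-- Commute-time bound for the oscillation of `h`. -/
theorem osc_bound (hR : Reversible P π) (hT : thit P ≠ ⊤) (h : V → ℝ) (x y : V) :
    (h x - h y) ^ 2 ≤ 2 * (thit P).toReal * energy P π h := by
  have lin : ∀ g : V → ℝ, bil P π (fun z => hr P y z - hr P x z) g = g x - g y := by
    intro g
    have h1 : bil P π (fun z => hr P y z - hr P x z) g =
        bil P π (hr P y) g - bil P π (hr P x) g := by
      unfold bil
      rw [← mul_sub, ← Finset.sum_sub_distrib]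
      congr 1
      refine Finset.sum_congr rfl fun a _ => ?_
      rw [← Finset.sum_sub_distrib]
      refine Finset.sum_congr rfl fun b _ => ?_
      ring
    rw [h1, bil_hr hR hT, bil_hr hR hT]
    ring
  have h2 := bil_cs hR (fun z => hr P y z - hr P x z) h
  rw [lin, lin, hr_self, hr_self, ← energy_eq] at h2
  have h3 := hr_le hR.nonneg hT x y
  have h4 := hr_le hR.nonneg hT y x
  refine h2.trans ?_
  refine mul_le_mul_of_nonneg_right ?_ (energy_nonneg hR h)
  linarith

/-- The Poincare inequality with the sharp constant `t_hit / 2`. -/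
theorem gap_bound (hR : Reversible P π) (hT : thit P ≠ ⊤) (h : V → ℝ) :
    variance π h ≤ (1 / 2) * (thit P).toReal * energy P π h := by
  have hne : (univ : Finset V).Nonempty := by
    by_contra hcon
    rw [Finset.not_nonempty_iff_eq_empty] at hcon
    have := hR.total
    rw [hcon] at this
    simp at this
  obtain ⟨x, -, hx⟩ := Finset.exists_max_image univ h hne
  obtain ⟨y, -, hy⟩ := Finset.exists_min_image univ h hne
  have h1 := osc_bound hR hT h x y
  have h2 : 0 ≤ ∑ z, π z * ((h x - h z) * (h z - h y)) :=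
    Finset.sum_nonneg fun z hz => mul_nonneg (hR.pos z).le
      (mul_nonneg (sub_nonneg.mpr (hx z hz)) (sub_nonneg.mpr (hy z hz)))
  have h3 : ∑ z, π z * ((h x - h z) * (h z - h y)) =
      (h x + h y) * (∑ z, π z * h z) - (∑ z, π z * (h z) ^ 2) - h x * h y := by
    have : ∀ z, π z * ((h x - h z) * (h z - h y)) =
        (h x + h y) * (π z * h z) - π z * (h z) ^ 2 - h x * h y * π z := by
      intro z; ring
    simp_rw [this]
    rw [Finset.sum_sub_distrib, Finset.sum_sub_distrib, ← Finset.mul_sum, ← Finset.mul_sum,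
      hR.total]
    ring
  rw [h3] at h2
  unfold variance
  nlinarith [sq_nonneg (h x + h y - 2 * ∑ z, π z * h z)]

/-- The iteration whose limit is `P_x(T_y < T_{Aᶜ})`. -/
def eqN (P : V → V → ℝ) (A : Finset V) (y : V) : ℕ → V → ℝ
  | 0, x => if x = y then 1 else 0
  | n + 1, x => if x = y then 1 else if x ∈ A then ∑ z, P x z * eqN P A y n z else 0

theorem eqN_nonneg (hR : Reversible P π) (A : Finset V) (y : V) (n : ℕ) (x : V) :
    0 ≤ eqN P A y n x := by
  induction n generalizing x with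
  | zero => simp only [eqN]; split_ifs <;> norm_num
  | succ n ih =>
    simp only [eqN]
    split_ifs
    · norm_num
    · exact Finset.sum_nonneg fun z _ => mul_nonneg (hR.nonneg _ _) (ih z)
    · exact le_rfl

theorem eqN_le_one (hR : Reversible P π) (A : Finset V) (y : V) (n : ℕ) (x : V) :
    eqN P A y n x ≤ 1 := by
  induction n generalizing x with
  | zero => simp only [eqN]; split_ifs <;> norm_num
  | succ n ih =>
    simp only [eqN]
    split_ifs
    · exact le_rfl
    · calc ∑ z, P x z * eqN P A y n z ≤ ∑ z, P x z * 1 :=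
            Finset.sum_le_sum fun z _ => mul_le_mul_of_nonneg_left (ih z) (hR.nonneg x z)
        _ = 1 := by simp_rw [mul_one]; exact hR.row x
    · norm_num

theorem eqN_mono (hR : Reversible P π) (A : Finset V) (y : V) (n : ℕ) (x : V) :
    eqN P A y n x ≤ eqN P A y (n + 1) x := by
  induction n generalizing x with
  | zero =>
    by_cases hx : x = y
    · simp [eqN, hx]
    · have h0 : eqN P A y 0 x = 0 := by simp [eqN, hx]
      rw [h0]; exact eqN_nonneg hR A y 1 x
  | succ n ih =>
    rw [eqN, eqN]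
    split_ifs
    · exact le_rfl
    · exact Finset.sum_le_sum fun z _ => mul_le_mul_of_nonneg_left (ih z) (hR.nonneg x z)
    · exact le_rfl

/-- Existence of the equilibrium potential of `y` in `A`. -/
theorem exists_potential (hR : Reversible P π) (A : Finset V) (y : V) :
    ∃ φ : V → ℝ, φ y = 1 ∧ (∀ x, 0 ≤ φ x) ∧ (∀ x, φ x ≤ 1) ∧ (∀ x, x ≠ y → x ∉ A → φ x = 0) ∧
      ∀ x, x ≠ y → x ∈ A → φ x = ∑ z, P x z * φ z := by
  have hmono : ∀ x, Monotone fun n => eqN P A y n x := fun x =>
    monotone_nat_of_le_succ fun n => eqN_mono hR A y n x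
  have hbdd : ∀ x, BddAbove (Set.range fun n => eqN P A y n x) := by
    intro x
    refine ⟨1, ?_⟩
    rintro _ ⟨n, rfl⟩
    exact eqN_le_one hR A y n x
  have hlim : ∀ x, Filter.Tendsto (fun n => eqN P A y n x) Filter.atTop
      (nhds (⨆ n, eqN P A y n x)) := fun x => tendsto_atTop_ciSup (hmono x) (hbdd x)
  refine ⟨fun x => ⨆ n, eqN P A y n x, ?_, ?_, ?_, ?_, ?_⟩
  · have : ∀ n, eqN P A y n y = 1 := by intro n; cases n <;> simp [eqN]
    simp [this]
  · intro x; exact Real.iSup_nonneg fun n => eqN_nonneg hR A y n x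
  · intro x; exact ciSup_le fun n => eqN_le_one hR A y n x
  · intro x hx hxA
    have : ∀ n, eqN P A y n x = 0 := by intro n; cases n <;> simp [eqN, hx, hxA]
    simp [this]
  · intro x hx hxA
    have h1 : Filter.Tendsto (fun n => eqN P A y (n + 1) x) Filter.atTop
        (nhds (⨆ n, eqN P A y n x)) := (Filter.tendsto_add_atTop_iff_nat 1).mpr (hlim x)
    have h2 : Filter.Tendsto (fun n => ∑ z, P x z * eqN P A y n z) Filter.atTop
        (nhds (∑ z, P x z * ⨆ n, eqN P A y n z)) :=
      tendsto_finsetSum _ fun z _ => (hlim z).const_mul _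
    have h3 : (fun n => eqN P A y (n + 1) x) = fun n => ∑ z, P x z * eqN P A y n z := by
      funext n
      simp [eqN, hx, hxA]
    rw [h3] at h1
    exact tendsto_nhds_unique h1 h2

/-- The sup-norm bound: if `h` vanishes off `A` then `(1-π(A)) h(y)² ≤ t_hit E(h,h)`. -/
theorem sup_bound (hR : Reversible P π) (hT : thit P ≠ ⊤) (A : Finset V) (h : V → ℝ)
    (hA : ∀ x, x ∉ A → h x = 0) (y : V) :
    (1 - ∑ x ∈ A, π x) * (h y) ^ 2 ≤ (thit P).toReal * energy P π h := by
  have hT0 : 0 ≤ (thit P).toReal := ENNReal.toReal_nonneg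
  by_cases hyA : y ∈ A
  swap
  · rw [hA y hyA]
    have := mul_nonneg hT0 (energy_nonneg hR h)
    simpa using this
  obtain ⟨φ, hφy, hφ0, hφ1, hφA, hφh⟩ := exists_potential hR A y
  set κ : ℝ := π y * (φ y - ∑ z, P y z * φ z) with hκ
  -- `E(φ,g) = κ g(y)` for `g` vanishing off `A`
  have e1 : ∀ g : V → ℝ, (∀ x, x ∉ A → g x = 0) → bil P π φ g = κ * g y := by
    intro g hg
    rw [bil_eq hR, Finset.sum_eq_single y]
    · rw [hκ]; ring
    · intro x _ hx
      by_cases hxA : x ∈ A
      · rw [← hφh x hx hxA]; ring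
      · rw [hg x hxA]; ring
    · intro hy; exact absurd (mem_univ y) hy
  have hφA' : ∀ x, x ∉ A → φ x = 0 := by
    intro x hx
    refine hφA x ?_ hx
    rintro rfl
    exact hx hyA
  have e2 : bil P π φ φ = κ := by rw [e1 φ hφA', hφy, mul_one]
  have hκ0 : 0 ≤ κ := by
    rw [← e2, ← energy_eq]; exact energy_nonneg hR φ
  -- the Dirichlet principle
  have e3 : κ * (h y) ^ 2 ≤ energy P π h := by
    rcases hκ0.eq_or_lt with h0 | h0
    · rw [← h0, zero_mul]; exact energy_nonneg hR h
    · have := bil_cs hR φ h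
      rw [e1 h hA, e2, ← energy_eq] at this
      have h5 : κ * (κ * (h y) ^ 2) ≤ κ * energy P π h := by nlinarith [this]
      exact le_of_mul_le_mul_left h5 h0
  -- the lower bound for the capacity
  have e4 : ∑ x, π x * φ x - 1 = bil P π (hr P y) φ := by
    rw [bil_hr hR hT, hφy]
  have e5 : ∑ x, π x * (φ x - ∑ z, P x z * φ z) = 0 := by
    have := bil_eq hR φ (fun _ => 1)
    unfold bil at this
    simp at this
    linarith [this]
  have e6 : -(κ * (thit P).toReal) ≤ bil P π (hr P y) φ := by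
    rw [bil_comm, bil_eq hR]
    have h7 : ∀ x, (thit P).toReal * (π x * (φ x - ∑ z, P x z * φ z)) -
        (if x = y then κ * (thit P).toReal else 0) ≤
        hr P y x * (π x * (φ x - ∑ z, P x z * φ z)) := by
      intro x
      by_cases hx : x = y
      · subst hx
        rw [hr_self, if_pos rfl, ← hκ]
        nlinarith
      · rw [if_neg hx, sub_zero]
        by_cases hxA : x ∈ A
        · rw [← hφh x hx hxA]; simp
        · rw [hφA x hx hxA]
          have h8 : 0 ≤ ∑ z, P x z * φ z :=
            Finset.sum_nonneg fun z _ => mul_nonneg (hR.nonneg x z) (hφ0 z)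
          have h9 := hr_le hR.nonneg hT x y
          have h10 := mul_nonneg (hR.pos x).le h8
          nlinarith
    have h8 := Finset.sum_le_sum fun x (_ : x ∈ univ) => h7 x
    rw [Finset.sum_sub_distrib, ← Finset.mul_sum, e5] at h8
    simpa using h8
  have e7 : ∑ x, π x * φ x ≤ ∑ x ∈ A, π x := by
    have : ∑ x, π x * φ x = ∑ x ∈ A, π x * φ x := by
      symm
      apply Finset.sum_subset (Finset.subset_univ A)
      intro x _ hx
      rw [hφA' x hx, mul_zero]
    rw [this]
    refine Finset.sum_le_sum fun x _ => ?_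
    have := mul_le_mul_of_nonneg_left (hφ1 x) (hR.pos x).le
    linarith
  have e8 : 1 - ∑ x ∈ A, π x ≤ κ * (thit P).toReal := by linarith
  calc (1 - ∑ x ∈ A, π x) * (h y) ^ 2 ≤ (κ * (thit P).toReal) * (h y) ^ 2 :=
        mul_le_mul_of_nonneg_right e8 (sq_nonneg _)
    _ = (thit P).toReal * (κ * (h y) ^ 2) := by ring
    _ ≤ (thit P).toReal * energy P π h := mul_le_mul_of_nonneg_left e3 hT0

theorem arith (M N a₁ a₂ m₁ m₂ q₁ q₂ : ℝ) (hM : 0 ≤ M) (hN : 0 ≤ N) (ha₁ : 0 ≤ a₁)
    (ha₂ : 0 ≤ a₂) (hsum : a₁ + a₂ ≤ 1 / 2) (hm₁ : 0 ≤ m₁) (hm₂ : 0 ≤ m₂) (h1 : m₁ ≤ a₁ * M)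
    (h2 : m₂ ≤ a₂ * N) (hq₁ : q₁ ≤ M * m₁) (hq₂ : q₂ ≤ N * m₂) :
    q₁ + q₂ - (m₁ - m₂) ^ 2 ≤ (a₁ + a₂) * ((1 - a₁) * M ^ 2 + (1 - a₂) * N ^ 2) := by
  obtain ⟨u, hu⟩ : ∃ u, u = a₁ * M - m₁ := ⟨_, rfl⟩
  obtain ⟨v, hv⟩ : ∃ v, v = a₂ * N - m₂ := ⟨_, rfl⟩
  have hu0 : 0 ≤ u := by rw [hu]; linarith
  have hv0 : 0 ≤ v := by rw [hv]; linarith
  have p1 : 0 ≤ u * (M * (1 - 2 * a₁) + u) :=
    mul_nonneg hu0 (add_nonneg (mul_nonneg hM (by linarith)) hu0)
  have p2 : 0 ≤ v * (N * (1 - 2 * a₂) + v) :=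
    mul_nonneg hv0 (add_nonneg (mul_nonneg hN (by linarith)) hv0)
  have p3 : 0 ≤ 2 * m₁ * v + 2 * m₂ * u + 2 * u * v := by positivity
  have p4 : 0 ≤ a₂ * (1 - a₁ - a₂) * M ^ 2 :=
    mul_nonneg (mul_nonneg ha₂ (by linarith)) (sq_nonneg M)
  have p5 : 0 ≤ a₁ * (1 - a₁ - a₂) * N ^ 2 :=
    mul_nonneg (mul_nonneg ha₁ (by linarith)) (sq_nonneg N)
  have p6 := sq_nonneg (a₂ * M - a₁ * N)
  have e1 : m₁ = a₁ * M - u := by rw [hu]; ring
  have e2 : m₂ = a₂ * N - v := by rw [hv]; ring
  have key : (a₁ + a₂) * ((1 - a₁) * M ^ 2 + (1 - a₂) * N ^ 2) -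
      (M * m₁ + N * m₂ - (m₁ - m₂) ^ 2) =
      u * (M * (1 - 2 * a₁) + u) + v * (N * (1 - 2 * a₂) + v) +
        (2 * m₁ * v + 2 * m₂ * u + 2 * u * v) + a₂ * (1 - a₁ - a₂) * M ^ 2 +
        a₁ * (1 - a₁ - a₂) * N ^ 2 + (a₂ * M - a₁ * N) ^ 2 := by
    rw [e1, e2]; ring
  linarith

/-- The sharp bound at small measure. -/
theorem small_bound (hR : Reversible P π) (hT : thit P ≠ ⊤) (h : V → ℝ) (δ : ℝ)
    (hδ : suppMass π h ≤ δ) (hδ2 : δ ≤ 1 / 2) :
    variance π h ≤ δ * (thit P).toReal * energy P π h := by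
  have hT0 : 0 ≤ (thit P).toReal := ENNReal.toReal_nonneg
  have hne : (univ : Finset V).Nonempty := by
    by_contra hcon
    rw [Finset.not_nonempty_iff_eq_empty] at hcon
    have := hR.total
    rw [hcon] at this
    simp at this
  let p : V → ℝ := fun x => max (h x) 0
  let n : V → ℝ := fun x => max (-h x) 0
  have hp0 : ∀ x, 0 ≤ p x := fun x => le_max_right _ _
  have hn0 : ∀ x, 0 ≤ n x := fun x => le_max_right _ _
  obtain ⟨x₁, -, hx₁⟩ := Finset.exists_max_image univ p hne
  obtain ⟨x₂, -, hx₂⟩ := Finset.exists_max_image univ n hne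
  let A₁ : Finset V := univ.filter fun x => 0 < h x
  let A₂ : Finset V := univ.filter fun x => h x < 0
  have hpA : ∀ x, x ∉ A₁ → p x = 0 := by
    intro x hx
    have : ¬ 0 < h x := by simpa [A₁] using hx
    exact max_eq_right (not_lt.mp this)
  have hnA : ∀ x, x ∉ A₂ → n x = 0 := by
    intro x hx
    have : ¬ h x < 0 := by simpa [A₂] using hx
    exact max_eq_right (by linarith [not_lt.mp this])
  have b1 := sup_bound hR hT A₁ p hpA x₁
  have b2 := sup_bound hR hT A₂ n hnA x₂
  set a₁ : ℝ := ∑ x ∈ A₁, π x with ha₁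
  set a₂ : ℝ := ∑ x ∈ A₂, π x with ha₂
  have ha₁0 : 0 ≤ a₁ := Finset.sum_nonneg fun x _ => (hR.pos x).le
  have ha₂0 : 0 ≤ a₂ := Finset.sum_nonneg fun x _ => (hR.pos x).le
  have hsum : a₁ + a₂ = suppMass π h := by
    rw [ha₁, ha₂]
    unfold suppMass
    rw [Finset.sum_filter, Finset.sum_filter, ← Finset.sum_add_distrib]
    refine Finset.sum_congr rfl fun x _ => ?_
    rcases lt_trichotomy (h x) 0 with hx | hx | hx
    · simp [hx, hx.ne, not_lt.mpr hx.le]
    · simp [hx]
    · simp [hx, hx.ne', not_lt.mpr hx.le]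
  -- the energies of the two parts
  have hE : energy P π p + energy P π n ≤ energy P π h := by
    unfold energy
    rw [← mul_add, ← Finset.sum_add_distrib]
    refine mul_le_mul_of_nonneg_left ?_ (by norm_num)
    refine Finset.sum_le_sum fun x _ => ?_
    rw [← Finset.sum_add_distrib]
    refine Finset.sum_le_sum fun y _ => ?_
    rw [← mul_add]
    refine mul_le_mul_of_nonneg_left ?_ (mul_nonneg (hR.pos x).le (hR.nonneg x y))
    have i1 : h x = p x - n x := by
      simp only [p, n]
      rcases le_total (h x) 0 with hx | hx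
      · rw [max_eq_right hx, max_eq_left (by linarith)]; ring
      · rw [max_eq_left hx, max_eq_right (by linarith)]; ring
    have i2 : h y = p y - n y := by
      simp only [p, n]
      rcases le_total (h y) 0 with hx | hx
      · rw [max_eq_right hx, max_eq_left (by linarith)]; ring
      · rw [max_eq_left hx, max_eq_right (by linarith)]; ring
    have i3 : p x * n x = 0 := by
      simp only [p, n]
      rcases le_total (h x) 0 with hx | hx
      · rw [max_eq_right hx]; ring
      · rw [max_eq_right (a := -h x) (by linarith)]; ring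
    have i4 : p y * n y = 0 := by
      simp only [p, n]
      rcases le_total (h y) 0 with hx | hx
      · rw [max_eq_right hx]; ring
      · rw [max_eq_right (a := -h y) (by linarith)]; ring
    have i5 : 0 ≤ p x * n y := mul_nonneg (hp0 x) (hn0 y)
    have i6 : 0 ≤ p y * n x := mul_nonneg (hp0 y) (hn0 x)
    rw [i1, i2]
    nlinarith
  -- first and second moments
  have hmp : ∑ x, π x * p x ≤ a₁ * p x₁ := by
    have : ∑ x, π x * p x = ∑ x ∈ A₁, π x * p x := by
      symm
      apply Finset.sum_subset (Finset.subset_univ A₁)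
      intro x _ hx
      rw [hpA x hx, mul_zero]
    rw [this, ha₁, Finset.sum_mul]
    exact Finset.sum_le_sum fun x _ => mul_le_mul_of_nonneg_left (hx₁ x (mem_univ x)) (hR.pos x).le
  have hmn : ∑ x, π x * n x ≤ a₂ * n x₂ := by
    have : ∑ x, π x * n x = ∑ x ∈ A₂, π x * n x := by
      symm
      apply Finset.sum_subset (Finset.subset_univ A₂)
      intro x _ hx
      rw [hnA x hx, mul_zero]
    rw [this, ha₂, Finset.sum_mul]
    exact Finset.sum_le_sum fun x _ => mul_le_mul_of_nonneg_left (hx₂ x (mem_univ x)) (hR.pos x).le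
  have hqp : ∑ x, π x * (p x) ^ 2 ≤ p x₁ * ∑ x, π x * p x := by
    rw [Finset.mul_sum]
    refine Finset.sum_le_sum fun x _ => ?_
    have := mul_le_mul_of_nonneg_left (hx₁ x (mem_univ x)) (mul_nonneg (hR.pos x).le (hp0 x))
    nlinarith
  have hqn : ∑ x, π x * (n x) ^ 2 ≤ n x₂ * ∑ x, π x * n x := by
    rw [Finset.mul_sum]
    refine Finset.sum_le_sum fun x _ => ?_
    have := mul_le_mul_of_nonneg_left (hx₂ x (mem_univ x)) (mul_nonneg (hR.pos x).le (hn0 x))
    nlinarith
  have hvar : variance π h = ∑ x, π x * (p x) ^ 2 + ∑ x, π x * (n x) ^ 2 -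
      (∑ x, π x * p x - ∑ x, π x * n x) ^ 2 := by
    unfold variance
    rw [← Finset.sum_add_distrib, ← Finset.sum_sub_distrib]
    congr 1
    · refine Finset.sum_congr rfl fun x _ => ?_
      simp only [p, n]
      rcases le_total (h x) 0 with hx | hx
      · rw [max_eq_right hx, max_eq_left (by linarith)]; ring
      · rw [max_eq_left hx, max_eq_right (by linarith)]; ring
    · congr 1
      refine Finset.sum_congr rfl fun x _ => ?_
      simp only [p, n]
      rcases le_total (h x) 0 with hx | hx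
      · rw [max_eq_right hx, max_eq_left (by linarith)]; ring
      · rw [max_eq_left hx, max_eq_right (by linarith)]; ring
  have hmain := arith (p x₁) (n x₂) a₁ a₂ (∑ x, π x * p x) (∑ x, π x * n x)
    (∑ x, π x * (p x) ^ 2) (∑ x, π x * (n x) ^ 2) (hp0 x₁) (hn0 x₂) ha₁0 ha₂0
    (by rw [hsum]; exact hδ.trans hδ2)
    (Finset.sum_nonneg fun x _ => mul_nonneg (hR.pos x).le (hp0 x))
    (Finset.sum_nonneg fun x _ => mul_nonneg (hR.pos x).le (hn0 x)) hmp hmn hqp hqn
  rw [hvar]
  refine hmain.trans ?_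
  have hpE := energy_nonneg hR p
  have hnE := energy_nonneg hR n
  have hhE := energy_nonneg hR h
  calc (a₁ + a₂) * ((1 - a₁) * p x₁ ^ 2 + (1 - a₂) * n x₂ ^ 2)
      ≤ (a₁ + a₂) * ((thit P).toReal * energy P π h) := by
        refine mul_le_mul_of_nonneg_left ?_ (by linarith)
        have := mul_le_mul_of_nonneg_left hE hT0
        linarith
    _ ≤ δ * ((thit P).toReal * energy P π h) := by
        refine mul_le_mul_of_nonneg_right ?_ (mul_nonneg hT0 hhE)
        rw [hsum]; exact hδ
    _ = δ * (thit P).toReal * energy P π h := by ring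

theorem inv_profile_le (δ c : ℝ) (hc : 0 ≤ c)
    (hb : ∀ h : V → ℝ, variance π h = 1 → suppMass π h ≤ δ → 1 ≤ c * energy P π h) :
    (profile P π δ)⁻¹ ≤ ENNReal.ofReal c := by
  rw [ENNReal.inv_le_iff_inv_le]
  unfold profile
  refine le_iInf fun h => ?_
  have h1 := hb h.1 h.2.1 h.2.2
  have hc' : 0 < c := by
    rcases hc.lt_or_eq with h2 | h2
    · exact h2
    · rw [← h2] at h1; norm_num at h1
  rw [← ENNReal.ofReal_inv_of_pos hc']
  apply ENNReal.ofReal_le_ofReal
  rw [inv_le_iff_one_le_mul₀ hc']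
  linarith

/-- The sharp profile inequality. -/
theorem profile_bound (hR : Reversible P π) (δ : ℝ) (hδ : 0 < δ) :
    (profile P π δ)⁻¹ ≤ ENNReal.ofReal (min δ (1 / 2)) * thit P := by
  have hmin : 0 < min δ (1 / 2) := lt_min hδ (by norm_num)
  by_cases hT : thit P = ⊤
  · rw [hT, ENNReal.mul_top (by simpa using hmin)]
    exact le_top
  have hT0 : 0 ≤ (thit P).toReal := ENNReal.toReal_nonneg
  have hTT : ENNReal.ofReal (thit P).toReal = thit P := ENNReal.ofReal_toReal hT
  have : (profile P π δ)⁻¹ ≤ ENNReal.ofReal (min δ (1 / 2) * (thit P).toReal) := by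
    refine inv_profile_le δ _ (mul_nonneg hmin.le hT0) fun h hv hs => ?_
    refine hv.symm.trans_le ?_
    rcases le_total δ (1 / 2) with hd | hd
    · rw [min_eq_left hd]
      exact small_bound hR hT h δ hs hd
    · rw [min_eq_right hd]
      exact gap_bound hR hT h
  rwa [ENNReal.ofReal_mul hmin.le, hTT] at this

/-- The integrated inequality. -/
theorem profileInt_bound (hR : ∀ δ : ℝ, 0 < δ →
    (profile P π δ)⁻¹ ≤ ENNReal.ofReal (min δ (1 / 2)) * thit P) (b : ℝ) (hb : 1 / 2 ≤ b) :
    profileInt P π 0 b ≤ ENNReal.ofReal (1 + Real.log (2 * b)) * thit P := by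
  by_cases hT : thit P = ⊤
  · have : 0 < 1 + Real.log (2 * b) := by
      have := Real.log_nonneg (by linarith : (1 : ℝ) ≤ 2 * b)
      linarith
    rw [hT, ENNReal.mul_top (by simpa using this)]
    exact le_top
  set T := (thit P).toReal with hTdef
  have hT0 : 0 ≤ T := ENNReal.toReal_nonneg
  have hTT : ENNReal.ofReal T = thit P := ENNReal.ofReal_toReal hT
  have hpt : ∀ δ ∈ Set.Ioc (0 : ℝ) b, 2 / (ENNReal.ofReal δ * profile P π δ) ≤
      (Set.Ioc (0 : ℝ) (1 / 2)).indicator (fun _ => ENNReal.ofReal (2 * T)) δ +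
        (Set.Ioc (1 / 2 : ℝ) b).indicator (fun δ => ENNReal.ofReal (T * (1 / δ))) δ := by
    intro δ hδ
    have hδ0 : 0 < δ := hδ.1
    have e1 : 2 / (ENNReal.ofReal δ * profile P π δ) =
        ENNReal.ofReal (2 / δ) * (profile P π δ)⁻¹ := by
      rw [ENNReal.div_eq_inv_mul, ENNReal.mul_inv (Or.inl (by simpa using hδ0))
        (Or.inl ENNReal.ofReal_ne_top), ENNReal.ofReal_div_of_pos hδ0, ENNReal.div_eq_inv_mul]
      rw [ENNReal.ofReal_ofNat]
      ring
    have e2 : 2 / (ENNReal.ofReal δ * profile P π δ) ≤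
        ENNReal.ofReal (2 / δ) * ENNReal.ofReal (min δ (1 / 2) * T) := by
      rw [e1, ENNReal.ofReal_mul (le_min hδ0.le (by norm_num)), hTT]
      gcongr
      exact hR δ hδ0
    refine e2.trans ?_
    rw [← ENNReal.ofReal_mul (by positivity)]
    by_cases hd : δ ≤ 1 / 2
    · have m1 : δ ∈ Set.Ioc (0 : ℝ) (1 / 2) := ⟨hδ0, hd⟩
      rw [Set.indicator_of_mem m1]
      refine le_trans (le_of_eq ?_) le_self_add
      rw [min_eq_left hd]
      congr 1; field_simp
    · have hd' := (not_le.mp hd).le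
      have m1 : δ ∈ Set.Ioc (1 / 2 : ℝ) b := ⟨not_le.mp hd, hδ.2⟩
      rw [Set.indicator_of_mem m1]
      refine le_trans (le_of_eq ?_) le_add_self
      rw [min_eq_right hd']
      congr 1; field_simp
  have hcalc : profileInt P π 0 b ≤ ∫⁻ δ : ℝ,
      ((Set.Ioc (0 : ℝ) (1 / 2)).indicator (fun _ => ENNReal.ofReal (2 * T)) δ +
        (Set.Ioc (1 / 2 : ℝ) b).indicator (fun δ => ENNReal.ofReal (T * (1 / δ))) δ) := by
    unfold profileInt
    calc ∫⁻ δ in Set.Ioc 0 b, 2 / (ENNReal.ofReal δ * profile P π δ)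
        ≤ ∫⁻ δ in Set.Ioc 0 b,
          ((Set.Ioc (0 : ℝ) (1 / 2)).indicator (fun _ => ENNReal.ofReal (2 * T)) δ +
          (Set.Ioc (1 / 2 : ℝ) b).indicator (fun δ => ENNReal.ofReal (T * (1 / δ))) δ) := by
          refine lintegral_mono_ae ?_
          refine (ae_restrict_iff' measurableSet_Ioc).mpr (Filter.Eventually.of_forall ?_)
          exact hpt
      _ ≤ _ := setLIntegral_le_lintegral _ _
  refine hcalc.trans ?_
  rw [lintegral_add_left (by exact (measurable_const.indicator measurableSet_Ioc)),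
    lintegral_indicator measurableSet_Ioc, lintegral_indicator measurableSet_Ioc]
  have i1 : ∫⁻ _ in Set.Ioc (0 : ℝ) (1 / 2), ENNReal.ofReal (2 * T) = ENNReal.ofReal T := by
    rw [setLIntegral_const, Real.volume_Ioc, ← ENNReal.ofReal_mul (by positivity)]
    congr 1; ring
  have hlog : 0 ≤ Real.log (2 * b) := Real.log_nonneg (by linarith)
  have i2 : ∫⁻ δ in Set.Ioc (1 / 2 : ℝ) b, ENNReal.ofReal (T * (1 / δ)) =
      ENNReal.ofReal (T * Real.log (2 * b)) := by
    rw [← ofReal_integral_eq_lintegral_ofReal]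
    · congr 1
      rw [integral_const_mul, ← intervalIntegral.integral_of_le hb,
        integral_one_div_of_pos (by norm_num) (by linarith)]
      congr 2
      ring
    · have : IntegrableOn (fun δ : ℝ => 1 / δ) (Set.Ioc (1 / 2 : ℝ) b) := by
        rw [← intervalIntegrable_iff_integrableOn_Ioc_of_le hb]
        apply intervalIntegral.intervalIntegrable_one_div
        · intro x hx
          rw [Set.uIcc_of_le hb] at hx
          have := hx.1
          intro h0; rw [h0] at this; norm_num at this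
        · exact continuousOn_id
      exact this.const_mul _
    · refine (ae_restrict_iff' measurableSet_Ioc).mpr (Filter.Eventually.of_forall fun t ht => ?_)
      have ht' : (0 : ℝ) < t := lt_trans (by norm_num) ht.1
      simp only [Pi.zero_apply]
      positivity
  rw [i1, i2, ← ENNReal.ofReal_add hT0 (mul_nonneg hT0 hlog), ← hTT,
    ← ENNReal.ofReal_mul (by linarith)]
  apply ENNReal.ofReal_le_ofReal
  linarith

theorem tsp_bound (hπ : ∀ x, 0 ≤ π x) (hR : ∀ δ : ℝ, 0 < δ →
    (profile P π δ)⁻¹ ≤ ENNReal.ofReal (min δ (1 / 2)) * thit P) :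
    tsp P π ≤ ENNReal.ofReal (1 + 5 * Real.log 2) * thit P := by
  have hmin : 0 ≤ piMin π := Real.iInf_nonneg hπ
  have h1 : tsp P π ≤ profileInt P π 0 16 := by
    unfold tsp profileInt
    apply lintegral_mono_set
    exact Set.Ioc_subset_Ioc_left (by linarith)
  refine h1.trans ((profileInt_bound hR 16 (by norm_num)).trans (le_of_eq ?_))
  have : (2 : ℝ) * 16 = 2 ^ 5 := by norm_num
  rw [this, Real.log_pow]
  norm_num

theorem profile_le_of (δ : ℝ) (h : V → ℝ) (hv : 0 < variance π h) (hs : suppMass π h ≤ δ) :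
    profile P π δ ≤ ENNReal.ofReal (energy P π h / variance π h) := by
  set c : ℝ := (Real.sqrt (variance π h))⁻¹ with hc
  have hc0 : c ≠ 0 := by
    rw [hc]; exact inv_ne_zero (Real.sqrt_pos.mpr hv).ne'
  have hc2 : c ^ 2 = (variance π h)⁻¹ := by
    rw [hc, inv_pow, Real.sq_sqrt hv.le]
  have e1 : variance π (fun x => c * h x) = 1 := by
    have : variance π (fun x => c * h x) = c ^ 2 * variance π h := by
      unfold variance
      have i1 : ∀ x, π x * (c * h x) ^ 2 = c ^ 2 * (π x * (h x) ^ 2) := by intro x; ring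
      have i2 : ∀ x, π x * (c * h x) = c * (π x * h x) := by intro x; ring
      simp_rw [i1, i2]
      rw [← Finset.mul_sum, ← Finset.mul_sum]
      ring
    rw [this, hc2, inv_mul_cancel₀ hv.ne']
  have e2 : suppMass π (fun x => c * h x) ≤ δ := by
    refine le_trans (le_of_eq ?_) hs
    unfold suppMass
    refine Finset.sum_congr rfl fun x _ => ?_
    simp [hc0]
  have e3 : energy P π (fun x => c * h x) = energy P π h / variance π h := by
    have : energy P π (fun x => c * h x) = c ^ 2 * energy P π h := by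
      unfold energy
      have i1 : ∀ x y, π x * P x y * (c * h x - c * h y) ^ 2 =
          c ^ 2 * (π x * P x y * (h x - h y) ^ 2) := by intro x y; ring
      simp_rw [i1, ← Finset.mul_sum]
      ring
    rw [this, hc2]
    field_simp
  unfold profile
  exact iInf_le_of_le ⟨fun x => c * h x, e1, e2⟩ (by rw [e3])

theorem srw_reversible [Nontrivial V] (G : SimpleGraph V) [DecidableRel G.Adj]
    (hG : G.Connected) : Reversible (srw G) (stat G) := by
  have hdeg : ∀ x, 0 < G.degree x := fun x => hG.preconnected.degree_pos_of_nontrivial x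
  obtain ⟨x₀⟩ : Nonempty V := inferInstance
  have hE : 0 < G.edgeFinset.card := by
    obtain ⟨y, hy⟩ := (G.degree_pos_iff_exists_adj x₀).mp (hdeg x₀)
    exact Finset.card_pos.mpr ⟨s(x₀, y), by simpa using hy⟩
  have hE' : (0 : ℝ) < G.edgeFinset.card := by exact_mod_cast hE
  have hdeg' : ∀ x, (0 : ℝ) < G.degree x := fun x => by exact_mod_cast hdeg x
  refine ⟨?_, ?_, ?_, ?_, ?_⟩
  · intro x y; unfold srw; split_ifs <;> positivity
  · intro x
    unfold srw
    rw [← Finset.sum_filter, Finset.sum_const, nsmul_eq_mul]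
    have : (univ.filter fun y => G.Adj x y) = G.neighborFinset x := by
      ext y; simp
    rw [this, G.card_neighborFinset_eq_degree]
    have := hdeg' x
    field_simp
  · intro x; unfold stat; have := hdeg' x; positivity
  · have h2 := G.sum_degrees_eq_twice_card_edges
    unfold stat
    rw [← Finset.sum_div]
    have h3 : (∑ x, (G.degree x : ℝ)) = 2 * (G.edgeFinset.card : ℝ) := by exact_mod_cast h2
    rw [h3]
    field_simp
  · intro x y
    have key : ∀ x y, stat G x * srw G x y =
        if G.Adj x y then 1 / (2 * (G.edgeFinset.card : ℝ)) else 0 := by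
      intro x y
      unfold stat srw
      split_ifs
      · have := hdeg' x; field_simp
      · simp
    rw [key, key]; simp only [G.adj_comm]

/-- The sharp profile inequality for every finite connected graph. -/
theorem graph_bound (G : SimpleGraph V) [DecidableRel G.Adj] (hG : G.Connected) (δ : ℝ)
    (hδ : 0 < δ) :
    (profile (srw G) (stat G) δ)⁻¹ ≤ ENNReal.ofReal (min δ (1 / 2)) * thit (srw G) := by
  rcases subsingleton_or_nontrivial V with hV | hV
  · have h0 : ∀ x, stat G x = 0 := by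
      intro x
      have : G.degree x = 0 := by
        rw [← G.card_neighborFinset_eq_degree, Finset.card_eq_zero]
        ext y
        simp only [SimpleGraph.mem_neighborFinset, Finset.notMem_empty, iff_false]
        intro hxy
        exact hxy.ne (Subsingleton.elim x y)
      rw [stat, this]; simp
    have : profile (srw G) (stat G) δ = ⊤ := by
      unfold profile
      rw [iInf_eq_top]
      rintro ⟨h, hv, -⟩
      exfalso
      simp [variance, h0] at hv
    rw [this]
    simp
  · exact profile_bound (srw_reversible G hG) δ hδ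

end Proof

section TwoState

/-- The law `(a, 1-a)` on two points. -/
def law (a : ℝ) : Bool → ℝ := fun x => if x then a else 1 - a

theorem avoid_iid (a : ℝ) (y : Bool) (n : ℕ) (x : Bool) :
    avoid (fun _ z => law a z) y n x = if x = y then 0 else (1 - law a y) ^ n := by
  induction n generalizing x with
  | zero => simp [avoid]
  | succ n ih =>
    rw [avoid]
    by_cases hxy : x = y
    · simp [hxy]
    · rw [if_neg hxy, if_neg hxy]
      simp only [ih, Fintype.sum_bool]
      cases y
      · simp [law]; ring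
      · simp [law]; ring

theorem law_reversible (a : ℝ) (h0 : 0 < a) (h1 : a < 1) :
    Reversible (fun _ z => law a z) (law a) := by
  have hpos : ∀ x, 0 < law a x := by
    intro x; cases x
    · simp [law]; linarith
    · simpa [law] using h0
  refine ⟨fun x y => (hpos y).le, fun x => ?_, hpos, ?_, fun x y => mul_comm _ _⟩
  · simp [law]
  · simp [law]

theorem hit_iid (a : ℝ) (h0 : 0 < a) (h1 : a < 1) (x y : Bool) :
    hit (fun _ z => law a z) x y ≤ ENNReal.ofReal (1 / law a y) := by
  have hR := law_reversible a h0 h1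
  rw [hit_eq hR.nonneg]
  by_cases hxy : x = y
  · simp [avoid_iid, hxy]
  · have hy := hR.pos y
    have hy1 : 0 ≤ 1 - law a y := by
      cases y
      · simp [law]; exact h0.le
      · simp [law]; exact h1.le
    have e : ∀ n : ℕ, ENNReal.ofReal (avoid (fun _ z => law a z) y n x) =
        ENNReal.ofReal (1 - law a y) ^ n := by
      intro n
      rw [avoid_iid, if_neg hxy, ENNReal.ofReal_pow hy1]
    simp_rw [e]
    rw [ENNReal.tsum_geometric]
    have : (1 : ℝ≥0∞) - ENNReal.ofReal (1 - law a y) = ENNReal.ofReal (law a y) := by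
      rw [← ENNReal.ofReal_one, ← ENNReal.ofReal_sub _ hy1]
      congr 1; ring
    rw [this, ← ENNReal.ofReal_inv_of_pos hy, one_div]

theorem thit_iid (a : ℝ) (h0 : 0 < a) (h1 : a ≤ 1 / 2) :
    thit (fun _ z => law a z) ≤ ENNReal.ofReal (1 / a) := by
  unfold thit
  refine iSup_le fun x => iSup_le fun y => (hit_iid a h0 (by linarith) x y).trans ?_
  apply ENNReal.ofReal_le_ofReal
  apply one_div_le_one_div_of_le h0
  cases y
  · simp [law]; linarith
  · simp [law]

/-- Sharpness at every scale. -/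
theorem sharp (δ : ℝ) (hδ : 0 < δ) :
    Reversible (fun _ z => law (min δ (1 / 2)) z) (law (min δ (1 / 2))) ∧
    thit (fun _ z => law (min δ (1 / 2)) z) ≠ ⊤ ∧
    profile (fun _ z => law (min δ (1 / 2)) z) (law (min δ (1 / 2))) δ = 1 ∧
    (profile (fun _ z => law (min δ (1 / 2)) z) (law (min δ (1 / 2))) δ)⁻¹ =
      ENNReal.ofReal (min δ (1 / 2)) * thit (fun _ z => law (min δ (1 / 2)) z) := by
  set a := min δ (1 / 2) with ha
  have h0 : 0 < a := lt_min hδ (by norm_num)
  have h1 : a ≤ 1 / 2 := min_le_right _ _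
  have h2 : a ≤ δ := min_le_left _ _
  have hR := law_reversible a h0 (by linarith)
  have hT := thit_iid a h0 h1
  have hub := profile_bound hR δ hδ
  rw [← ha] at hub
  have hprod : ENNReal.ofReal a * thit (fun _ z => law a z) ≤ 1 := by
    calc ENNReal.ofReal a * thit (fun _ z => law a z)
        ≤ ENNReal.ofReal a * ENNReal.ofReal (1 / a) := by gcongr
      _ = 1 := by
        rw [← ENNReal.ofReal_mul h0.le, mul_one_div_cancel h0.ne', ENNReal.ofReal_one]
  have hvar : variance (law a) (fun x => if x then 1 else 0) = a * (1 - a) := by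
    simp [variance, law]; ring
  have hen : energy (fun _ z => law a z) (law a) (fun x => if x then 1 else 0) = a * (1 - a) := by
    simp [energy, law]; ring
  have hsupp : suppMass (law a) (fun x => if x then 1 else 0) ≤ δ := by
    simpa [suppMass, law] using h2
  have hvpos : 0 < a * (1 - a) := mul_pos h0 (by linarith)
  have hlb := profile_le_of (P := fun _ z => law a z) (π := law a) δ
    (fun x => if x then 1 else 0) (by rw [hvar]; exact hvpos) hsupp
  rw [hvar, hen, div_self hvpos.ne', ENNReal.ofReal_one] at hlb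
  have hlb' : 1 ≤ (profile (fun _ z => law a z) (law a) δ)⁻¹ := ENNReal.one_le_inv.mpr hlb
  have heq : (profile (fun _ z => law a z) (law a) δ)⁻¹ = 1 :=
    le_antisymm (hub.trans hprod) hlb'
  refine ⟨hR, ne_top_of_le_ne_top ENNReal.ofReal_ne_top hT, ?_, ?_⟩
  · exact ENNReal.inv_eq_one.mp heq
  · exact le_antisymm hub (hprod.trans hlb')

end TwoState

section Complete

theorem srw_top (n : ℕ) (x y : Fin n) :
    srw (⊤ : SimpleGraph (Fin n)) x y = if x = y then 0 else 1 / ((n : ℝ) - 1) := by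
  have hn : 0 < n := Fin.pos x
  unfold srw
  rw [SimpleGraph.complete_graph_degree, Fintype.card_fin, Nat.cast_pred hn]
  by_cases h : x = y <;> simp [h]

theorem stat_top (n : ℕ) (hn : 2 ≤ n) (x : Fin n) :
    stat (⊤ : SimpleGraph (Fin n)) x = 1 / (n : ℝ) := by
  have : Nontrivial (Fin n) := Fin.nontrivial_iff_two_le.mpr hn
  have hR := srw_reversible (⊤ : SimpleGraph (Fin n)) SimpleGraph.connected_top
  have h1 := hR.total
  have h2 : ∀ y, stat (⊤ : SimpleGraph (Fin n)) y = stat (⊤ : SimpleGraph (Fin n)) x := by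
    intro y
    unfold stat
    rw [SimpleGraph.complete_graph_degree, SimpleGraph.complete_graph_degree]
  simp_rw [h2] at h1
  rw [Finset.sum_const, Finset.card_univ, Fintype.card_fin, nsmul_eq_mul] at h1
  have h3 : (0 : ℝ) < n := by positivity
  rw [eq_div_iff h3.ne', mul_comm]
  exact h1

theorem avoid_top (n : ℕ) (hn : 2 ≤ n) (y : Fin n) (k : ℕ) (x : Fin n) :
    avoid (srw (⊤ : SimpleGraph (Fin n))) y k x =
      if x = y then 0 else (((n : ℝ) - 2) / ((n : ℝ) - 1)) ^ k := by
  have hn1 : (0 : ℝ) < (n : ℝ) - 1 := by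
    have : (2 : ℝ) ≤ n := by exact_mod_cast hn
    linarith
  induction k generalizing x with
  | zero => simp [avoid]
  | succ k ih =>
    rw [avoid]
    by_cases hxy : x = y
    · simp [hxy]
    · rw [if_neg hxy, if_neg hxy]
      have h1 : ∀ z, srw (⊤ : SimpleGraph (Fin n)) x z *
          avoid (srw (⊤ : SimpleGraph (Fin n))) y k z =
          (1 / ((n : ℝ) - 1) * (((n : ℝ) - 2) / ((n : ℝ) - 1)) ^ k) *
            (1 - (if x = z then 1 else 0) - (if y = z then 1 else 0)) := by
        intro z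
        rw [ih, srw_top]
        by_cases hxz : x = z
        · have hyz : y ≠ z := fun h => hxy (hxz.trans h.symm)
          simp [hxz, hyz]
        · by_cases hyz : y = z
          · subst hyz
            simp [hxz]
          · have hzy : ¬ z = y := fun h => hyz h.symm
            simp [hxz, hyz, hzy]
      simp_rw [h1]
      rw [← Finset.mul_sum, Finset.sum_sub_distrib, Finset.sum_sub_distrib]
      simp only [Finset.sum_const, Finset.card_univ, Fintype.card_fin, nsmul_eq_mul, mul_one,
        Finset.sum_ite_eq, Finset.mem_univ, if_true]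
      rw [pow_succ]
      field_simp
      ring

theorem thit_top (n : ℕ) (hn : 2 ≤ n) :
    thit (srw (⊤ : SimpleGraph (Fin n))) ≤ ENNReal.ofReal ((n : ℝ) - 1) := by
  have : Nontrivial (Fin n) := Fin.nontrivial_iff_two_le.mpr hn
  have hR := srw_reversible (⊤ : SimpleGraph (Fin n)) SimpleGraph.connected_top
  have hn2 : (2 : ℝ) ≤ n := by exact_mod_cast hn
  have hn1 : (0 : ℝ) < (n : ℝ) - 1 := by linarith
  unfold thit
  refine iSup_le fun x => iSup_le fun y => ?_
  rw [hit_eq hR.nonneg]
  by_cases hxy : x = y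
  · simp [avoid_top n hn, hxy]
  · have hr0 : 0 ≤ ((n : ℝ) - 2) / ((n : ℝ) - 1) := div_nonneg (by linarith) hn1.le
    have e : ∀ k : ℕ, ENNReal.ofReal (avoid (srw (⊤ : SimpleGraph (Fin n))) y k x) =
        ENNReal.ofReal (((n : ℝ) - 2) / ((n : ℝ) - 1)) ^ k := by
      intro k
      rw [avoid_top n hn, if_neg hxy, ENNReal.ofReal_pow hr0]
    simp_rw [e]
    rw [ENNReal.tsum_geometric]
    have : (1 : ℝ≥0∞) - ENNReal.ofReal (((n : ℝ) - 2) / ((n : ℝ) - 1)) =
        ENNReal.ofReal (1 / ((n : ℝ) - 1)) := by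
      rw [← ENNReal.ofReal_one, ← ENNReal.ofReal_sub _ hr0]
      congr 1
      field_simp
      ring
    rw [this, ← ENNReal.ofReal_inv_of_pos (by positivity)]
    simp

/-- The profile inequality is an equality for the complete graphs (Cayley graphs of `Z_n`). -/
theorem complete_sharp (n : ℕ) (hn : 2 ≤ n) :
    thit (srw (⊤ : SimpleGraph (Fin n))) ≠ ⊤ ∧
    (profile (srw (⊤ : SimpleGraph (Fin n))) (stat (⊤ : SimpleGraph (Fin n))) (1 / n))⁻¹ ≠ 0 ∧
    (profile (srw (⊤ : SimpleGraph (Fin n))) (stat (⊤ : SimpleGraph (Fin n))) (1 / n))⁻¹ =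
      ENNReal.ofReal (1 / n) * thit (srw (⊤ : SimpleGraph (Fin n))) := by
  have : Nontrivial (Fin n) := Fin.nontrivial_iff_two_le.mpr hn
  have hR := srw_reversible (⊤ : SimpleGraph (Fin n)) SimpleGraph.connected_top
  have hn2 : (2 : ℝ) ≤ n := by exact_mod_cast hn
  have hn0 : (0 : ℝ) < n := by linarith
  have hn1 : (0 : ℝ) < (n : ℝ) - 1 := by linarith
  have hT := thit_top n hn
  have hub := profile_bound hR (1 / n) (by positivity)
  have hmin : min (1 / (n : ℝ)) (1 / 2) = 1 / n :=
    min_eq_left (one_div_le_one_div_of_le (by norm_num) hn2)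
  rw [hmin] at hub
  let x₀ : Fin n := ⟨0, by omega⟩
  let h : Fin n → ℝ := fun x => if x = x₀ then 1 else 0
  have hvar : variance (stat (⊤ : SimpleGraph (Fin n))) h = 1 / n * (1 - 1 / n) := by
    simp [variance, h, stat_top n hn]
    ring
  have hen : energy (srw (⊤ : SimpleGraph (Fin n))) (stat (⊤ : SimpleGraph (Fin n))) h =
      1 / n := by
    rw [energy_eq, bil_eq hR, Finset.sum_eq_single x₀]
    · simp [h, stat_top n hn, srw_top]
    · intro b _ hb; simp [h, hb]
    · intro hb; exact absurd (mem_univ x₀) hb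
  have hsupp : suppMass (stat (⊤ : SimpleGraph (Fin n))) h ≤ 1 / n := by
    simp [suppMass, h, stat_top n hn]
  have hvpos : 0 < 1 / (n : ℝ) * (1 - 1 / n) := by
    have : 1 / (n : ℝ) ≤ 1 / 2 := one_div_le_one_div_of_le (by norm_num) hn2
    exact mul_pos (by positivity) (by linarith)
  have hlb := profile_le_of (P := srw (⊤ : SimpleGraph (Fin n)))
    (π := stat (⊤ : SimpleGraph (Fin n))) (1 / n) h (by rw [hvar]; exact hvpos) hsupp
  rw [hvar, hen] at hlb
  have hval : 1 / (n : ℝ) / (1 / n * (1 - 1 / n)) = n / (n - 1) := by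
    field_simp
  rw [hval] at hlb
  have hlb' : ENNReal.ofReal (((n : ℝ) - 1) / n) ≤
      (profile (srw (⊤ : SimpleGraph (Fin n))) (stat (⊤ : SimpleGraph (Fin n))) (1 / n))⁻¹ := by
    have e : ENNReal.ofReal (((n : ℝ) - 1) / n) = (ENNReal.ofReal (n / (n - 1)))⁻¹ := by
      rw [← ENNReal.ofReal_inv_of_pos (by positivity), inv_div]
    rw [e]
    exact ENNReal.inv_le_inv.mpr hlb
  have hprod : ENNReal.ofReal (1 / n) * thit (srw (⊤ : SimpleGraph (Fin n))) ≤
      ENNReal.ofReal (((n : ℝ) - 1) / n) := by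
    calc ENNReal.ofReal (1 / n) * thit (srw (⊤ : SimpleGraph (Fin n)))
        ≤ ENNReal.ofReal (1 / n) * ENNReal.ofReal ((n : ℝ) - 1) := by gcongr
      _ = ENNReal.ofReal (((n : ℝ) - 1) / n) := by
        rw [← ENNReal.ofReal_mul (by positivity)]
        congr 1; ring
  refine ⟨ne_top_of_le_ne_top ENNReal.ofReal_ne_top hT, ?_, ?_⟩
  · intro h0
    rw [h0] at hlb'
    have : 0 < ((n : ℝ) - 1) / n := by positivity
    rw [nonpos_iff_eq_zero, ENNReal.ofReal_eq_zero] at hlb'
    linarith
  · exact le_antisymm hub (hprod.trans hlb')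

end Complete

section Cycle

/-- The deterministic rotation on `ZMod N`: simple random walk on the directed Cayley graph of
`ZMod N` with generating set `{1}`. -/
def rot (N : ℕ) (x y : ZMod N) : ℝ := if y = x + 1 then 1 else 0

/-- The uniform law on `ZMod N`. -/
def unif (N : ℕ) (_ : ZMod N) : ℝ := 1 / (N : ℝ)

variable {N : ℕ} [NeZero N]

theorem rot_sum (x : ZMod N) (f : ZMod N → ℝ) : ∑ y, rot N x y * f y = f (x + 1) := by
  simp [rot]

theorem val_one_of_two_le (hN : 2 ≤ N) : (1 : ZMod N).val = 1 := by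
  rw [ZMod.val_one_eq_one_mod, Nat.mod_eq_of_lt hN]

theorem avoid_rot (hN : 2 ≤ N) (y : ZMod N) (n : ℕ) (x : ZMod N) :
    avoid (rot N) y n x = if n < (y - x).val then 1 else 0 := by
  induction n generalizing x with
  | zero =>
    rw [avoid]
    by_cases hxy : x = y
    · simp [hxy]
    · have : (y - x).val ≠ 0 := by
        intro h0
        rw [ZMod.val_eq_zero] at h0
        exact hxy (sub_eq_zero.mp h0).symm
      rw [if_neg hxy, if_pos (Nat.pos_of_ne_zero this)]
  | succ n ih =>
    rw [avoid]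
    by_cases hxy : x = y
    · simp [hxy]
    · have h0 : (y - x).val ≠ 0 := by
        intro h0
        rw [ZMod.val_eq_zero] at h0
        exact hxy (sub_eq_zero.mp h0).symm
      rw [if_neg hxy, rot_sum, ih]
      have h1 : y - (x + 1) = (y - x) - 1 := by ring
      have h2 : ((y - x) - 1).val = (y - x).val - (1 : ZMod N).val := by
        apply ZMod.val_sub
        rw [val_one_of_two_le hN]
        omega
      rw [h1, h2, val_one_of_two_le hN]
      have h3 : n < (y - x).val - 1 ↔ n + 1 < (y - x).val := by omega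
      simp only [h3]

theorem rot_nonneg (x y : ZMod N) : 0 ≤ rot N x y := by
  unfold rot; split_ifs <;> norm_num

theorem thit_rot (hN : 2 ≤ N) : thit (rot N) ≤ N := by
  unfold thit
  refine iSup_le fun x => iSup_le fun y => ?_
  rw [hit_eq rot_nonneg]
  have h1 : ∀ n ∉ Finset.range N, ENNReal.ofReal (avoid (rot N) y n x) = 0 := by
    intro n hn
    rw [Finset.mem_range, not_lt] at hn
    rw [avoid_rot hN, if_neg]
    · simp
    · have := ZMod.val_lt (y - x)
      omega
  rw [tsum_eq_sum h1]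
  calc ∑ n ∈ Finset.range N, ENNReal.ofReal (avoid (rot N) y n x)
      ≤ ∑ _n ∈ Finset.range N, 1 := by
        refine Finset.sum_le_sum fun n _ => ?_
        rw [avoid_rot hN]
        split_ifs <;> simp
    _ = N := by simp

theorem sum_val (f : ℕ → ℝ) : ∑ x : ZMod N, f x.val = ∑ i ∈ Finset.range N, f i := by
  refine Finset.sum_nbij' (fun x : ZMod N => x.val) (fun i : ℕ => (i : ZMod N)) ?_ ?_ ?_ ?_ ?_
  · intro x _; exact Finset.mem_range.mpr (ZMod.val_lt x)
  · intro i _; exact Finset.mem_univ _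
  · intro x _; exact ZMod.natCast_zmod_val x
  · intro i hi; exact ZMod.val_cast_of_lt (Finset.mem_range.mp hi)
  · intro x _; rfl

theorem sum_abs (m : ℕ) : ∑ i ∈ Finset.range (2 * m), |(i : ℝ) - m| = (m : ℝ) ^ 2 := by
  rw [two_mul, Finset.sum_range_add, ← Finset.sum_add_distrib]
  have : ∀ i ∈ Finset.range m, |(i : ℝ) - m| + |((m + i : ℕ) : ℝ) - m| = m := by
    intro i hi
    have hi' : (i : ℝ) < m := by exact_mod_cast Finset.mem_range.mp hi
    rw [abs_of_nonpos (by linarith), Nat.cast_add, add_sub_cancel_left,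
      abs_of_nonneg (Nat.cast_nonneg i)]
    ring
  rw [Finset.sum_congr rfl this, Finset.sum_const, Finset.card_range, nsmul_eq_mul]
  ring

theorem sum_sq (n : ℕ) (c : ℝ) : ∑ i ∈ Finset.range n, ((i : ℝ) - c) ^ 2 =
    n * c ^ 2 - c * (n * (n - 1)) + (n - 1) * n * (2 * n - 1) / 6 := by
  induction n with
  | zero => simp
  | succ n ih =>
    rw [Finset.sum_range_succ, ih]
    push_cast
    ring

theorem tent_variance (m : ℕ) (hm : 1 ≤ m) [NeZero (2 * m)] :
    variance (unif (2 * m)) (fun x : ZMod (2 * m) => |(x.val : ℝ) - m|) =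
      (m : ℝ) ^ 2 / 12 + 1 / 6 := by
  have hm' : (0 : ℝ) < m := by exact_mod_cast hm
  unfold variance unif
  rw [← Finset.mul_sum, ← Finset.mul_sum, sum_val (fun i => |(i : ℝ) - m| ^ 2),
    sum_val (fun i => |(i : ℝ) - m|), sum_abs]
  simp_rw [sq_abs]
  rw [sum_sq]
  push_cast
  field_simp
  ring

theorem tent_step (m : ℕ) (hm : 1 ≤ m) [NeZero (2 * m)] (x : ZMod (2 * m)) :
    (|(x.val : ℝ) - m| - |((x + 1).val : ℝ) - m|) ^ 2 = 1 := by
  have hm' : (1 : ℝ) ≤ m := by exact_mod_cast hm
  have hv := ZMod.val_lt x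
  have h1 : (x + 1).val = (x.val + 1) % (2 * m) := by
    rw [ZMod.val_add, val_one_of_two_le (by omega)]
  rcases Nat.lt_or_ge (x.val + 1) (2 * m) with h2 | h2
  · rw [h1, Nat.mod_eq_of_lt h2]
    push_cast
    rcases Nat.lt_or_ge x.val m with h3 | h3
    · have h4 : (x.val : ℝ) + 1 ≤ m := by exact_mod_cast h3
      rw [abs_of_nonpos (by linarith), abs_of_nonpos (by linarith)]
      ring
    · have h4 : (m : ℝ) ≤ x.val := by exact_mod_cast h3
      rw [abs_of_nonneg (by linarith), abs_of_nonneg (by linarith)]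
      ring
  · have h3 : x.val + 1 = 2 * m := by omega
    have h4 : (x.val : ℝ) = 2 * m - 1 := by
      have : ((x.val + 1 : ℕ) : ℝ) = ((2 * m : ℕ) : ℝ) := by rw [h3]
      push_cast at this
      linarith
    rw [h1, h3, Nat.mod_self, h4, Nat.cast_zero, zero_sub, abs_neg, abs_of_nonneg (by linarith),
      abs_of_nonneg (by linarith)]
    ring

theorem tent_energy (m : ℕ) (hm : 1 ≤ m) [NeZero (2 * m)] :
    energy (rot (2 * m)) (unif (2 * m)) (fun x : ZMod (2 * m) => |(x.val : ℝ) - m|) = 1 / 2 := by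
  have hm' : (0 : ℝ) < m := by exact_mod_cast hm
  unfold energy
  have h1 : ∀ x : ZMod (2 * m), ∑ y, unif (2 * m) x * rot (2 * m) x y *
      (|(x.val : ℝ) - m| - |(y.val : ℝ) - m|) ^ 2 = 1 / ((2 * m : ℕ) : ℝ) := by
    intro x
    have h2 : ∀ y, unif (2 * m) x * rot (2 * m) x y *
        (|(x.val : ℝ) - m| - |(y.val : ℝ) - m|) ^ 2 = 1 / ((2 * m : ℕ) : ℝ) * (rot (2 * m) x y *
        (|(x.val : ℝ) - m| - |(y.val : ℝ) - m|) ^ 2) := by
      intro y; unfold unif; ring
    simp_rw [h2]
    rw [← Finset.mul_sum, rot_sum x (fun y => (|(x.val : ℝ) - m| - |(y.val : ℝ) - m|) ^ 2),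
      tent_step m hm, mul_one]
  simp_rw [h1]
  rw [Finset.sum_const, Finset.card_univ, ZMod.card, nsmul_eq_mul]
  push_cast
  field_simp

/-- For the non-reversible rotation the inequality fails by an unbounded factor. -/
theorem rot_tsp (m : ℕ) (hm : 1 ≤ m) [NeZero (2 * m)] :
    ENNReal.ofReal ((m : ℝ) ^ 2 / 4) ≤ tsp (rot (2 * m)) (unif (2 * m)) := by
  have hm' : (1 : ℝ) ≤ m := by exact_mod_cast hm
  have hmin : piMin (unif (2 * m)) = 1 / (2 * m : ℝ) := by
    unfold piMin unif
    rw [ciInf_const]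
    push_cast
    rfl
  have hprof : ∀ δ : ℝ, 1 ≤ δ → profile (rot (2 * m)) (unif (2 * m)) δ ≤
      ENNReal.ofReal (6 / (m : ℝ) ^ 2) := by
    intro δ hδ
    have hv := tent_variance m hm
    have hE := tent_energy m hm
    have hs : suppMass (unif (2 * m)) (fun x : ZMod (2 * m) => |(x.val : ℝ) - m|) ≤ δ := by
      refine le_trans ?_ hδ
      unfold suppMass
      calc ∑ x : ZMod (2 * m), (if |(x.val : ℝ) - m| ≠ 0 then unif (2 * m) x else 0)
          ≤ ∑ _x : ZMod (2 * m), 1 / ((2 * m : ℕ) : ℝ) := by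
            refine Finset.sum_le_sum fun x _ => ?_
            unfold unif
            split_ifs
            · exact le_rfl
            · positivity
        _ = 1 := by
            rw [Finset.sum_const, Finset.card_univ, ZMod.card, nsmul_eq_mul]
            push_cast
            field_simp
    have h1 := profile_le_of (P := rot (2 * m)) (π := unif (2 * m)) δ
      (fun x : ZMod (2 * m) => |(x.val : ℝ) - m|) (by rw [hv]; positivity) hs
    refine h1.trans ?_
    apply ENNReal.ofReal_le_ofReal
    rw [hv, hE, div_le_div_iff₀ (by positivity) (by positivity)]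
    nlinarith
  have hstep : ∀ δ ∈ Set.Ioc (2 : ℝ) 16, ENNReal.ofReal ((m : ℝ) ^ 2 / 48) ≤
      2 / (ENNReal.ofReal δ * profile (rot (2 * m)) (unif (2 * m)) δ) := by
    intro δ hδ
    have h1 := hprof δ (by linarith [hδ.1])
    have h2 : ENNReal.ofReal δ * profile (rot (2 * m)) (unif (2 * m)) δ ≤
        ENNReal.ofReal (16 * (6 / (m : ℝ) ^ 2)) := by
      rw [ENNReal.ofReal_mul (by norm_num)]
      exact mul_le_mul' (ENNReal.ofReal_le_ofReal hδ.2) h1
    calc ENNReal.ofReal ((m : ℝ) ^ 2 / 48) = 2 / ENNReal.ofReal (16 * (6 / (m : ℝ) ^ 2)) := by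
          rw [← ENNReal.ofReal_ofNat 2, ← ENNReal.ofReal_div_of_pos (by positivity)]
          congr 1
          field_simp
          norm_num
      _ ≤ _ := ENNReal.div_le_div_left h2 2
  unfold tsp profileInt
  calc ENNReal.ofReal ((m : ℝ) ^ 2 / 4)
      ≤ ∫⁻ _ in Set.Ioc (2 : ℝ) 16, ENNReal.ofReal ((m : ℝ) ^ 2 / 48) := by
        rw [setLIntegral_const, Real.volume_Ioc, ← ENNReal.ofReal_mul (by positivity)]
        apply ENNReal.ofReal_le_ofReal
        nlinarith
    _ ≤ ∫⁻ δ in Set.Ioc (2 : ℝ) 16,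
          2 / (ENNReal.ofReal δ * profile (rot (2 * m)) (unif (2 * m)) δ) := by
        refine lintegral_mono_ae ?_
        exact (ae_restrict_iff' measurableSet_Ioc).mpr (Filter.Eventually.of_forall hstep)
    _ ≤ _ := by
        apply lintegral_mono_set
        apply Set.Ioc_subset_Ioc_left
        rw [hmin]
        rw [mul_one_div, div_le_iff₀ (by positivity)]
        nlinarith

end Cycle

/-- **Main theorem.**
1. For every finite reversible Markov chain, `1/Λ(δ) ≤ min(δ, 1/2) t_hit` for every `δ > 0`,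
   hence `∫_0^b 2dδ/(δΛ(δ)) ≤ (1 + log(2b)) t_hit` for `b ≥ 1/2` and
   `t_sp ≤ (1 + 5 log 2) t_hit`.
2. In particular for simple random walk on every finite connected graph, so on every finite
   connected Cayley graph (the question).
3. The factor `min(δ, 1/2)` is optimal for every `δ > 0`.
4. Equality holds for the complete graph `K_n`, a Cayley graph, at `δ = 1/n`.
5. Reversibility cannot be dropped, not even for directed Cayley graphs: for the rotation of
   `Z_{2m}` one has `t_hit ≤ 2m` and `t_sp ≥ m²/4`. -/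
theorem result :
    (∀ (V : Type) [Fintype V] [DecidableEq V] (P : V → V → ℝ) (π : V → ℝ), Reversible P π →
      (∀ δ : ℝ, 0 < δ → (profile P π δ)⁻¹ ≤ ENNReal.ofReal (min δ (1 / 2)) * thit P) ∧
      (∀ b : ℝ, 1 / 2 ≤ b →
        profileInt P π 0 b ≤ ENNReal.ofReal (1 + Real.log (2 * b)) * thit P) ∧
      tsp P π ≤ ENNReal.ofReal (1 + 5 * Real.log 2) * thit P) ∧
    (∀ (V : Type) [Fintype V] [DecidableEq V] (G : SimpleGraph V) [DecidableRel G.Adj],
      G.Connected →
      (∀ δ : ℝ, 0 < δ →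
        (profile (srw G) (stat G) δ)⁻¹ ≤ ENNReal.ofReal (min δ (1 / 2)) * thit (srw G)) ∧
      tsp (srw G) (stat G) ≤ ENNReal.ofReal (1 + 5 * Real.log 2) * thit (srw G)) ∧
    (∀ δ : ℝ, 0 < δ → ∃ (P : Bool → Bool → ℝ) (π : Bool → ℝ), Reversible P π ∧ thit P ≠ ⊤ ∧
      profile P π δ = 1 ∧
      (profile P π δ)⁻¹ = ENNReal.ofReal (min δ (1 / 2)) * thit P) ∧
    (∀ n : ℕ, 2 ≤ n →
      thit (srw (⊤ : SimpleGraph (Fin n))) ≠ ⊤ ∧
      (profile (srw (⊤ : SimpleGraph (Fin n))) (stat (⊤ : SimpleGraph (Fin n))) (1 / n))⁻¹ ≠ 0 ∧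
      (profile (srw (⊤ : SimpleGraph (Fin n))) (stat (⊤ : SimpleGraph (Fin n))) (1 / n))⁻¹ =
        ENNReal.ofReal (1 / n) * thit (srw (⊤ : SimpleGraph (Fin n)))) ∧
    (∀ (m : ℕ) [NeZero (2 * m)],
      (∀ x y, 0 ≤ rot (2 * m) x y) ∧ (∀ x, ∑ y, rot (2 * m) x y = 1) ∧
      (∀ y, ∑ x, unif (2 * m) x * rot (2 * m) x y = unif (2 * m) y) ∧
      thit (rot (2 * m)) ≤ ((2 * m : ℕ) : ℝ≥0∞) ∧
      ENNReal.ofReal ((m : ℝ) ^ 2 / 4) ≤ tsp (rot (2 * m)) (unif (2 * m))) := by
  refine ⟨?_, ?_, ?_, ?_, ?_⟩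
  · intro V _ _ P π hR
    refine ⟨fun δ hδ => profile_bound hR δ hδ, fun b hb => ?_, ?_⟩
    · exact profileInt_bound (fun δ hδ => profile_bound hR δ hδ) b hb
    · exact tsp_bound (fun x => (hR.pos x).le) (fun δ hδ => profile_bound hR δ hδ)
  · intro V _ _ G _ hG
    refine ⟨fun δ hδ => graph_bound G hG δ hδ, ?_⟩
    exact tsp_bound (fun x => by unfold stat; positivity) (fun δ hδ => graph_bound G hG δ hδ)
  · intro δ hδ
    exact ⟨_, _, sharp δ hδ⟩
  · exact fun n hn => complete_sharp n hn
  · intro m hm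
    have hm1 : 1 ≤ m := by
      rcases Nat.eq_zero_or_pos m with h | h
      · exfalso; exact hm.out (by rw [h, mul_zero])
      · exact h
    refine ⟨fun x y => rot_nonneg x y, fun x => ?_, fun y => ?_, thit_rot (by omega),
      rot_tsp m hm1⟩
    · have := rot_sum x (fun _ => (1 : ℝ))
      simpa using this
    · have h1 : ∀ x : ZMod (2 * m), unif (2 * m) x * rot (2 * m) x y =
          if x = y - 1 then unif (2 * m) y else 0 := by
        intro x
        unfold unif rot
        by_cases h : y = x + 1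
        · have : x = y - 1 := by rw [h]; ring
          simp [h]
        · have : ¬ x = y - 1 := fun h' => h (by rw [h']; ring)
          simp [h, this]
      simp_rw [h1]
      simp

end

end Pool.Agent.Results.MP_cb142b_pr.SharpProfile
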